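import Pool.Agent.W2helper94.KC.Q
import Pool.Agent.W2helper94.KC.P5

set_option autoImplicit false

/-!
# MP_5168f5: Kakeya maximal estimates for tubes that are concurrent over spheres of directions

Work in `ℝ^{d+1} = ℝ^d × ℝ` (`Space d`), `n = d + 1`.  For `v` in the closed unit ball of `ℝ^d` the
line number `v` of the family given by `b : ℝ^d → ℝ^d` is `{(b v + s v, s) : s ∈ ℝ}`; its direction
is `(v, 1)`.  `lineMax δ b f v` is the supremum of the averages of `|f|` over the `δ`-tubes of length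
one with axis on the line number `v`.

Split the coordinates of `ℝ^d` into `k ≥ 1` blocks of at least three coordinates; for `d = 2`, i.e.
`n = 3`, take one block of two coordinates.  The family is *concurrent* if all the lines whose
direction `v` has the same block norms `(|v_1|, …, |v_k|) = a` pass through one common point, the
vertex `(x a, σ a)`; the vertices are arbitrary measurable functions of `a`: nothing else is assumed,
no regularity and no genericity.  For `k = 1`, which is possible in every dimension `n ≥ 3`, the lines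
of the directions of every sphere (circle for `n = 3`) `|v| = a` have a common point.

For all concurrent families (the constants depend on the blocks and on the bound `H` for the heights
at which the functions live only) there is a weight `W ≥ 1` of bounded mean, depending on the family
only, such that for all functions and scales the maximal function satisfies the estimate of the
Kakeya maximal conjecture with the weight `1 / W`, at the critical exponent `p = n` with a
logarithmic loss, and for `2 ≤ p ≤ n` with the loss `max(ρ, δ)^(-(n-p))` for functions that live at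
distance `ρ` from the heights of the vertices (`ρ = 0` is allowed: then this is the sharp loss
`δ^(-(n-p))`; bushes are concurrent).  It follows that the maximal function is bounded
from `L^p` to `L^(p/2)` of all directions, and from `L^p` to `L^p` of the directions outside a
set of arbitrarily small measure.
-/

open MeasureTheory Set ENNReal NNReal Metric

namespace Pool.Agent.Results.MP_5168f5_an.ConcurrentChoices

/-- Euclidean space `ℝ^d`. -/
abbrev Vec (d : ℕ) : Type := EuclideanSpace ℝ (Fin d)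

/-- Euclidean space `ℝ^{d+1}`, written as `ℝ^d × ℝ` with the Euclidean norm. -/
abbrev Space (d : ℕ) : Type := WithLp 2 (Vec d × ℝ)

/-- The closed tube of length `1` and radius `δ` with centre `a` and axis direction `e`. -/
def tube {d : ℕ} (δ : ℝ) (e a : Space d) : Set (Space d) :=
  {y | |inner ℝ (y - a) e| ≤ 1 / 2 ∧ ‖(y - a) - (inner ℝ (y - a) e : ℝ) • e‖ ≤ δ}

/-- The unit vector `(v, 1)/√(1+|v|²)`. -/
noncomputable def dir {d : ℕ} (v : Vec d) : Space d :=
  (√(1 + ‖v‖ ^ 2))⁻¹ • WithLp.toLp 2 (v, (1:ℝ))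

/-- The point of height `s` on the line `{(b v + s v, s)}`. -/
noncomputable def linePt {d : ℕ} (b : Vec d → Vec d) (v : Vec d) (s : ℝ) : Space d :=
  WithLp.toLp 2 (b v + s • v, s)

/-- Supremum of the averages of `|f|` over the `δ`-tubes with axis on the line number `v`. -/
noncomputable def lineMax {d : ℕ} (δ : ℝ) (b : Vec d → Vec d) (f : Space d → ℝ) (v : Vec d) : ℝ≥0∞ :=
  ⨆ s : ℝ, (volume (tube δ (dir v) (linePt b v s)))⁻¹ *
    ∫⁻ y in tube δ (dir v) (linePt b v s), ‖f y‖ₑ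

/-- The norms of the blocks of the vector `v`; the coordinate `i` belongs to the block `π i`. -/
noncomputable def radii {d k : ℕ} (π : Fin d → Fin k) (v : Vec d) (j : Fin k) : ℝ :=
  √(∑ i with π i = j, v i ^ 2)

/-- For every `v` in the unit ball the line number `v` passes through the vertex `(x a, σ a)`, where
`a` are the block norms of `v`. -/
def Concurrent {d k : ℕ} (π : Fin d → Fin k) (x : (Fin k → ℝ) → Vec d) (σ : (Fin k → ℝ) → ℝ)
    (b : Vec d → Vec d) : Prop :=
  ∀ v ∈ closedBall (0 : Vec d) 1, b v + σ (radii π v) • v = x (radii π v)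

/-- `f` lives at heights `t` with `|t| ≤ H` which are at distance at least `ρ` from the heights of
all the vertices (for `ρ ≤ 0` the second condition is void). -/
def LivesAt {d k : ℕ} (π : Fin d → Fin k) (σ : (Fin k → ℝ) → ℝ) (H ρ : ℝ) (f : Space d → ℝ) : Prop :=
  ∀ (y : Vec d) (t : ℝ), f (WithLp.toLp 2 (y, t)) ≠ 0 →
    |t| ≤ H ∧ ∀ v ∈ closedBall (0 : Vec d) 1, ρ ≤ |t - σ (radii π v)|

/-- The estimate from `L^p` to `L^(p/s)` of the directions in `S` with the weight `1/U`, for all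
`p ≥ 2`, all `0 < δ < 1`, all `ρ ≤ 1` and all functions that live at distance `ρ` from the vertices:
the loss is `(1 + log (1/δ))^(p+k+4)` times `max(ρ, δ)^(-(n-p))` if `p ≤ n`. -/
def Estimate {d k : ℕ} (π : Fin d → Fin k) (σ : (Fin k → ℝ) → ℝ) (b : Vec d → Vec d) (H s : ℝ)
    (S : Set (Vec d)) (U : Vec d → ℝ≥0∞) (C : ℝ → ℝ) : Prop :=
  ∀ (p δ ρ : ℝ) (f : Space d → ℝ), 2 ≤ p → 0 < δ → δ < 1 → ρ ≤ 1 → AEMeasurable f volume →
    LivesAt π σ H ρ f →
    (∫⁻ v in S, lineMax δ b f v ^ (p / s) / U v) ^ s ≤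
      ENNReal.ofReal (C p * (1 + Real.log (1 / δ)) ^ (p + k + 4) *
        (max ρ δ) ^ (-(max 0 ((d : ℝ) + 1 - p)))) * ∫⁻ y, ‖f y‖ₑ ^ p

open Pool.Agent.W2helper94.KC

/-- The blocks. -/
noncomputable def blocks {d k : ℕ} (π : Fin d → Fin k) :
    (Σ j, Fin (Fintype.card {i // π i = j})) ≃ Fin d :=
  (Equiv.sigmaCongrRight (fun j => (Fintype.equivFin {i // π i = j}).symm)).trans
    (Equiv.sigmaFiberEquiv π)

theorem radii_eq {d k : ℕ} (π : Fin d → Fin k) (v : Vec d) : bn (blocks π) v = radii π v := by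
  funext j
  unfold bn radii
  rw [EuclideanSpace.norm_eq]
  congr 1
  have h1 : ∀ i : Fin (Fintype.card {i // π i = j}), ‖(blk (blocks π) v j) i‖ ^ 2 =
      (fun i : {i // π i = j} => v i.1 ^ 2) ((Fintype.equivFin {i // π i = j}).symm i) := by
    intro i
    rw [Real.norm_eq_abs, sq_abs]
    rfl
  rw [Finset.sum_congr rfl (fun i _ => h1 i)]
  refine (Equiv.sum_comp (Fintype.equivFin {i // π i = j}).symm
    (fun i : {i // π i = j} => v i.1 ^ 2)).trans ?_
  exact (Finset.sum_subtype (Finset.univ.filter (fun i => π i = j)) (by simp)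
    (fun i => v i ^ 2)).symm

theorem lineMax_congr' {d : ℕ} {δ : ℝ} {b b' : Vec d → Vec d} (f : Space d → ℝ) {v : Vec d}
    (h : b v = b' v) : lineMax δ b f v = lineMax δ b' f v := by
  unfold lineMax linePt
  rw [h]

theorem main {d k : ℕ} (hd : 1 ≤ d) (π : Fin d → Fin (k + 1)) (hP : PairsBd (blocks π)) {H : ℝ}
    (hH : 0 ≤ H) : ∃ (K : ℝ) (C : ℝ → ℝ), 0 < K ∧
      ∀ (x : (Fin (k + 1) → ℝ) → Vec d) (σ : (Fin (k + 1) → ℝ) → ℝ) (b : Vec d → Vec d),
        Measurable x → Measurable σ → Concurrent π x σ b →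
        ∃ W : Vec d → ℝ≥0∞, Measurable W ∧ (∀ v, 1 ≤ W v) ∧
          ∫⁻ v in closedBall (0 : Vec d) 1, W v ≤ ENNReal.ofReal K ∧
          Estimate π σ b H 1 (closedBall 0 1) W C := by
  obtain ⟨K, hK, hW⟩ := weight (blocks π) hP hH
  refine ⟨K.toReal + 1, cst d k H, by positivity, ?_⟩
  intro x σ b hx hσ hb
  obtain ⟨W, hWm, hW1, hWK, hWi⟩ := hW x σ hx hσ
  refine ⟨W, hWm, hW1, ?_, ?_⟩
  · refine hWK.trans ?_
    rw [← ENNReal.ofReal_toReal hK]
    apply ENNReal.ofReal_le_ofReal
    rw [ENNReal.toReal_ofReal ENNReal.toReal_nonneg]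
    linarith
  intro p δ ρ f hp hδ hδ1 hρ hf hfT
  rw [div_one, ENNReal.rpow_one]
  set b' := fam (blocks π) x σ with hb'
  set τ := tau (blocks π) σ with hτ
  have hbm : Measurable b' := measurable_fam _ hx hσ
  have hτm : Measurable τ := measurable_tau _ hσ
  have hbb : ∀ v ∈ closedBall (0 : Vec d) 1, b v = b' v := by
    intro v hv
    have h := hb v hv
    rw [hb']
    unfold fam
    rw [radii_eq, ← h]
    abel
  -- a measurable representative
  set D : Set (Space d) := {q | (WithLp.ofLp q).2 ∈ TT τ H ρ} with hD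
  have hDm : MeasurableSet D := by
    have : Measurable (fun q : Space d => (WithLp.ofLp q).2) :=
      measurable_snd.comp (WithLp.measurable_ofLp 2 (Vec d × ℝ))
    exact this (measurableSet_TT τ H ρ)
  have hfD : ∀ q, q ∉ D → f q = 0 := by
    intro q hq
    by_contra h0
    apply hq
    obtain ⟨y, t⟩ := q
    obtain ⟨h1, h2⟩ := hfT y t h0
    refine ⟨h1, fun v hv => ?_⟩
    have := h2 v (by simpa using hv)
    rw [hτ]
    unfold tau
    rw [radii_eq]
    exact this
  set F : Space d → ℝ := D.indicator (hf.mk f) with hF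
  have hFm : Measurable F := hf.measurable_mk.indicator hDm
  have hfF : f =ᵐ[volume] F := by
    filter_upwards [hf.ae_eq_mk] with q hq
    by_cases h : q ∈ D
    · rw [hF, indicator_of_mem h, hq]
    · rw [hF, indicator_of_notMem h, hfD q h]
  have hFT : ∀ (y : Vec d) (t : ℝ), t ∉ TT τ H ρ → F (WithLp.toLp 2 (y, t)) = 0 := by
    intro y t ht
    have : WithLp.toLp 2 (y, t) ∉ D := ht
    rw [hF, indicator_of_notMem this]
  have hmain := main_meas (k := k) hbm hτm hd hH hWm hW1 hWi hp hδ hδ1 hρ hFm hFT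
  have e1 : ∫⁻ y, ‖f y‖ₑ ^ p = ∫⁻ y, ‖F y‖ₑ ^ p := by
    apply lintegral_congr_ae
    filter_upwards [hfF] with q hq
    rw [hq]
  have e2 : ∫⁻ v in closedBall (0 : Vec d) 1, lineMax δ b f v ^ p / W v =
      ∫⁻ v in closedBall (0 : Vec d) 1, (W v)⁻¹ *
        Pool.Agent.H803R2.KakFTO.lineMax δ b' F v ^ p := by
    apply setLIntegral_congr_fun measurableSet_closedBall
    intro v hv
    have h1 : lineMax δ b f v = Pool.Agent.H803R2.KakFTO.lineMax δ b' F v := by
      rw [lineMax_congr' f (hbb v hv)]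
      exact Pool.Agent.H803R2.KakFTO.lineMax_congr b' v hfF
    show lineMax δ b f v ^ p / W v = _
    rw [h1, div_eq_mul_inv, mul_comm]
  rw [e1, e2]
  refine hmain.trans (le_of_eq ?_)
  congr 2
  unfold loss
  congr 2
  push_cast
  congr 1
  ring

theorem two {d k : ℕ} {π : Fin d → Fin k} {σ : (Fin k → ℝ) → ℝ} {b : Vec d → Vec d} {H K : ℝ}
    {W : Vec d → ℝ≥0∞} {C : ℝ → ℝ} (hK : 0 < K) (hWm : Measurable W) (hW1 : ∀ v, 1 ≤ W v)
    (hWK : ∫⁻ v in closedBall (0 : Vec d) 1, W v ≤ ENNReal.ofReal K)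
    (hE : Estimate π σ b H 1 (closedBall 0 1) W C) :
    Estimate π σ b H 2 (closedBall 0 1) 1 (fun p => K * C p) := by
  intro p δ ρ f hp hδ hδ1 hρ hf hfT
  have h := hE p δ ρ f hp hδ hδ1 hρ hf hfT
  rw [div_one, ENNReal.rpow_one] at h
  have hW0 : ∀ v, W v ≠ 0 := fun v => (one_pos.trans_le (hW1 v)).ne'
  -- the weight is finite almost everywhere
  have hWt : ∀ᵐ v ∂(volume.restrict (closedBall (0 : Vec d) 1)), W v < ∞ :=
    ae_lt_top hWm (ne_top_of_le_ne_top ENNReal.ofReal_ne_top hWK)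
  obtain ⟨φ, hφm, hφle, hφe⟩ := exists_measurable_le_lintegral_eq
    (volume.restrict (closedBall (0 : Vec d) 1)) (fun v => lineMax δ b f v ^ (p / 2))
  have e1 : ∫⁻ v in closedBall (0 : Vec d) 1, lineMax δ b f v ^ (p / 2) / (1 : Vec d → ℝ≥0∞) v =
      ∫⁻ v in closedBall (0 : Vec d) 1, φ v := by
    rw [← hφe]
    refine lintegral_congr fun v => ?_
    simp
  rw [e1, ENNReal.rpow_two]
  have e2 : ∫⁻ v in closedBall (0 : Vec d) 1, φ v =
      ∫⁻ v in closedBall (0 : Vec d) 1, (φ v * (W v)⁻¹ ^ (1 / 2 : ℝ)) * W v ^ (1 / 2 : ℝ) := by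
    apply lintegral_congr_ae
    filter_upwards [hWt] with v hv
    rw [mul_assoc, ← ENNReal.mul_rpow_of_nonneg _ _ (by norm_num : (0:ℝ) ≤ 1 / 2),
      ENNReal.inv_mul_cancel (hW0 v) hv.ne, ENNReal.one_rpow, mul_one]
  rw [e2]
  have hWi : Measurable (fun v => (W v)⁻¹ ^ (1 / 2 : ℝ)) := hWm.inv.pow_const _
  refine (Pool.Agent.H805R3.Kk.Gen.cauchy _ (hφm.mul hWi).aemeasurable
    (hWm.pow_const _).aemeasurable).trans ?_
  have e3 : ∀ a : ℝ≥0∞, (a ^ (1 / 2 : ℝ)) ^ 2 = a := by
    intro a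
    rw [← ENNReal.rpow_natCast, ← ENNReal.rpow_mul]
    norm_num
  calc (∫⁻ v in closedBall (0 : Vec d) 1, (φ v * (W v)⁻¹ ^ (1 / 2 : ℝ)) ^ 2) *
        ∫⁻ v in closedBall (0 : Vec d) 1, (W v ^ (1 / 2 : ℝ)) ^ 2
      ≤ (∫⁻ v in closedBall (0 : Vec d) 1, lineMax δ b f v ^ p / W v) * ENNReal.ofReal K := by
        gcongr with v
        · show (φ v * (W v)⁻¹ ^ (1 / 2 : ℝ)) ^ 2 ≤ lineMax δ b f v ^ p / W v
          rw [mul_pow, e3, div_eq_mul_inv]
          gcongr
          calc φ v ^ 2 ≤ (lineMax δ b f v ^ (p / 2)) ^ 2 := by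
                gcongr
                exact hφle v
            _ = lineMax δ b f v ^ p := by
                rw [← ENNReal.rpow_natCast, ← ENNReal.rpow_mul]
                norm_num
        · simp only [e3]
          exact hWK
    _ ≤ (ENNReal.ofReal (C p * (1 + Real.log (1 / δ)) ^ (p + k + 4) *
        (max ρ δ) ^ (-(max 0 ((d : ℝ) + 1 - p)))) * ∫⁻ y, ‖f y‖ₑ ^ p) * ENNReal.ofReal K := by
        gcongr
    _ = _ := by
        rw [mul_comm, ← mul_assoc, ← ENNReal.ofReal_mul hK.le]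
        congr 2
        ring

theorem three {d k : ℕ} {π : Fin d → Fin k} {σ : (Fin k → ℝ) → ℝ} {b : Vec d → Vec d} {H K : ℝ}
    {W : Vec d → ℝ≥0∞} {C : ℝ → ℝ} (hK : 0 < K) (hWm : Measurable W)
    (hWK : ∫⁻ v in closedBall (0 : Vec d) 1, W v ≤ ENNReal.ofReal K)
    (hE : Estimate π σ b H 1 (closedBall 0 1) W C) {η : ℝ} (hη : 0 < η) :
    ∃ S : Set (Vec d), MeasurableSet S ∧ S ⊆ closedBall 0 1 ∧
      volume (closedBall (0 : Vec d) 1 \ S) ≤ ENNReal.ofReal η ∧
      Estimate π σ b H 1 S 1 (fun p => K / η * C p) := by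
  have hKη : 0 < K / η := by positivity
  refine ⟨closedBall 0 1 ∩ {v | W v ≤ ENNReal.ofReal (K / η)},
    measurableSet_closedBall.inter (hWm measurableSet_Iic), inter_subset_left, ?_, ?_⟩
  · have h1 : closedBall (0 : Vec d) 1 \ (closedBall 0 1 ∩ {v | W v ≤ ENNReal.ofReal (K / η)}) ⊆
        {v | ENNReal.ofReal (K / η) ≤ W v} ∩ closedBall 0 1 := by
      rintro v ⟨hv, hv2⟩
      refine ⟨?_, hv⟩
      by_contra h
      exact hv2 ⟨hv, (not_le.1 (show ¬ ENNReal.ofReal (K / η) ≤ W v from h)).le⟩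
    refine (measure_mono h1).trans ?_
    have h5 : MeasurableSet {v | ENNReal.ofReal (K / η) ≤ W v} := hWm measurableSet_Ici
    rw [← Measure.restrict_apply h5]
    have h2 := mul_meas_ge_le_lintegral (μ := volume.restrict (closedBall (0 : Vec d) 1)) hWm
      (ENNReal.ofReal (K / η))
    have h3 := h2.trans hWK
    have h4 : ENNReal.ofReal K = ENNReal.ofReal (K / η) * ENNReal.ofReal η := by
      rw [← ENNReal.ofReal_mul hKη.le]
      congr 1
      field_simp
    rw [h4] at h3
    exact (ENNReal.mul_le_mul_iff_right (by simpa using hKη) ENNReal.ofReal_ne_top).1 h3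
  intro p δ ρ f hp hδ hδ1 hρ hf hfT
  have h := hE p δ ρ f hp hδ hδ1 hρ hf hfT
  rw [div_one, ENNReal.rpow_one] at h ⊢
  calc ∫⁻ v in closedBall 0 1 ∩ {v | W v ≤ ENNReal.ofReal (K / η)},
        lineMax δ b f v ^ p / (1 : Vec d → ℝ≥0∞) v
      ≤ ∫⁻ v in closedBall 0 1 ∩ {v | W v ≤ ENNReal.ofReal (K / η)},
        ENNReal.ofReal (K / η) * (lineMax δ b f v ^ p / W v) := by
        apply setLIntegral_mono' (measurableSet_closedBall.inter (hWm measurableSet_Iic))
        rintro v ⟨-, hv⟩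
        rw [Pi.one_apply, div_one]
        have hWt : W v ≠ ∞ := ne_top_of_le_ne_top ENNReal.ofReal_ne_top hv
        by_cases hW0 : W v = 0
        · rw [hW0]
          by_cases h0 : lineMax δ b f v ^ p = 0
          · rw [h0]; simp
          · rw [ENNReal.div_zero h0, ENNReal.mul_top (by simpa using hKη)]
            exact le_top
        calc lineMax δ b f v ^ p = W v * (lineMax δ b f v ^ p / W v) := by
              rw [ENNReal.mul_div_cancel hW0 hWt]
          _ ≤ _ := by gcongr; exact hv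
    _ ≤ ∫⁻ v in closedBall (0 : Vec d) 1, ENNReal.ofReal (K / η) * (lineMax δ b f v ^ p / W v) :=
        lintegral_mono_set inter_subset_left
    _ = ENNReal.ofReal (K / η) * ∫⁻ v in closedBall (0 : Vec d) 1, lineMax δ b f v ^ p / W v :=
        lintegral_const_mul' _ _ ENNReal.ofReal_ne_top
    _ ≤ ENNReal.ofReal (K / η) * (ENNReal.ofReal (C p * (1 + Real.log (1 / δ)) ^ (p + k + 4) *
        (max ρ δ) ^ (-(max 0 ((d : ℝ) + 1 - p)))) * ∫⁻ y, ‖f y‖ₑ ^ p) := by gcongr
    _ = _ := by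
        rw [← mul_assoc, ← ENNReal.ofReal_mul hKη.le]
        congr 2
        ring

theorem mono {d k : ℕ} {π : Fin d → Fin k} {σ : (Fin k → ℝ) → ℝ} {b : Vec d → Vec d} {H s : ℝ}
    {S : Set (Vec d)} {U : Vec d → ℝ≥0∞} {C C' : ℝ → ℝ} (hC : ∀ p, C p ≤ C' p)
    (hE : Estimate π σ b H s S U C) : Estimate π σ b H s S U C' := by
  intro p δ ρ f hp hδ hδ1 hρ hf hfT
  refine (hE p δ ρ f hp hδ hδ1 hρ hf hfT).trans ?_
  have h1 : 0 ≤ Real.log (1 / δ) := by
    apply Real.log_nonneg
    rw [le_div_iff₀ hδ]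
    linarith
  have h2 : 0 < max ρ δ := lt_max_of_lt_right hδ
  have h3 := hC p
  gcongr

theorem hyps {d k : ℕ} (π : Fin d → Fin (k + 1))
    (hπ : (∀ j, 3 ≤ (Finset.univ.filter (fun i => π i = j)).card) ∨ (d = 2 ∧ k + 1 = 1)) :
    1 ≤ d ∧ PairsBd (blocks π) := by
  rcases hπ with hπ | ⟨rfl, hk⟩
  · have hm : ∀ j, 3 ≤ Fintype.card {i // π i = j} := by
      intro j
      rw [Fintype.card_subtype]
      exact hπ j
    refine ⟨?_, pairs (blocks π) hm⟩
    have h1 := hπ 0
    have h2 := Finset.card_filter_le (Finset.univ : Finset (Fin d)) (fun i => π i = 0)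
    simp only [Finset.card_univ, Fintype.card_fin] at h2
    omega
  · obtain rfl : k = 0 := by omega
    exact ⟨by norm_num, pairs2 (blocks π)⟩

/-- **Kakeya maximal estimates for concurrent families of lines.** -/
theorem result (d k : ℕ) (hk : 1 ≤ k) (π : Fin d → Fin k)
    (hπ : (∀ j, 3 ≤ (Finset.univ.filter (fun i => π i = j)).card) ∨ (d = 2 ∧ k = 1))
    (H : ℝ) (hH : 0 ≤ H) :
    ∃ (K : ℝ) (C : ℝ → ℝ), ∀ (x : (Fin k → ℝ) → Vec d) (σ : (Fin k → ℝ) → ℝ) (b : Vec d → Vec d),
      Measurable x → Measurable σ → Concurrent π x σ b →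
      -- (1) from `L^p` to `L^p` with a weight
      (∃ W : Vec d → ℝ≥0∞, Measurable W ∧ (∀ v, 1 ≤ W v) ∧
        ∫⁻ v in closedBall (0 : Vec d) 1, W v ≤ ENNReal.ofReal K ∧
        Estimate π σ b H 1 (closedBall 0 1) W C) ∧
      -- (2) from `L^p` to `L^(p/2)` of all directions
      Estimate π σ b H 2 (closedBall 0 1) 1 C ∧
      -- (3) from `L^p` to `L^p` outside small sets of directions
      ∀ η : ℝ, 0 < η → ∃ S : Set (Vec d), MeasurableSet S ∧ S ⊆ closedBall 0 1 ∧
        volume (closedBall (0 : Vec d) 1 \ S) ≤ ENNReal.ofReal η ∧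
        Estimate π σ b H 1 S 1 (fun p => C p / η) := by
  obtain ⟨k, rfl⟩ : ∃ l, k = l + 1 := ⟨k - 1, by omega⟩
  obtain ⟨hd, hP⟩ := hyps π hπ
  obtain ⟨K, C, hK, hKC⟩ := main hd π hP hH
  refine ⟨K, fun p => (K + 1) * |C p|, ?_⟩
  intro x σ b hx hσ hb
  obtain ⟨W, hWm, hW1, hWK, hE⟩ := hKC x σ b hx hσ hb
  refine ⟨⟨W, hWm, hW1, hWK, mono (fun p => ?_) hE⟩, mono (fun p => ?_) (two hK hWm hW1 hWK hE), ?_⟩
  · nlinarith [le_abs_self (C p), abs_nonneg (C p)]
  · nlinarith [le_abs_self (C p), abs_nonneg (C p)]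
  · intro η hη
    obtain ⟨S, hS, hSB, hSη, hSE⟩ := three hK hWm hWK hE hη
    refine ⟨S, hS, hSB, hSη, mono (fun p => ?_) hSE⟩
    show K / η * C p ≤ (K + 1) * |C p| / η
    rw [div_mul_eq_mul_div]
    apply div_le_div_of_nonneg_right _ hη.le
    nlinarith [le_abs_self (C p), abs_nonneg (C p)]

end Pool.Agent.Results.MP_5168f5_an.ConcurrentChoices
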