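import Pool.Agent.W2helper94.PIT.GenSum

/-!
# Explicit hitting sets for sums of read-once oblivious branching programs of bounded width

Polynomial identity testing for read-once oblivious algebraic branching programs (ROABPs):
polynomials of the form `u · M_1(x_{σ 1}) M_2(x_{σ 2}) ⋯ M_n(x_{σ n}) · v` with `w × w` matrices
`M_l` whose entries are univariate polynomials, `u`, `v` constant vectors and `σ` an UNKNOWN order
of the variables.

For all numbers `w` and `c` we give an explicit set `hitSet w c n D` of at most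
`(n D + 1) ^ (2 q)` integer points, where `q = numSeeds w c` depends on `w` and `c` only, which
hits every nonzero polynomial of total degree at most `D` in `n` variables that is a sum of `c`
polynomials computed by ROABPs of width `w`, each summand reading the variables in its own unknown
order, and more generally every nonzero product of such sums.  Thus for fixed `w` and `c` this is
a deterministic polynomial time black-box identity test.  For `c = 1` this treats ROABPs of
constant width in unknown variable order.  The points are those of the generator of Shpilka and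
Volkovich with `numSeeds w c` copies.

The proof (see `Pool/Agent/W2helper94/PIT`): for one ROABP, by downward induction on the smallest
rank `ρ` of the products of consecutive matrices: if these ranks are at least `ρ + 1` then
boundedly many modifications of a base point suffice to make the value nonzero, and then the same
is true for rank `ρ`, provided that finitely many rank conditions hold at the base point; these
conditions are again values of chains with ranks at least `ρ + 1` (tensor powers of the matrices).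
Sums are treated by eliminating the summands one after the other: linear dependencies between
prefixes of one program, realised by few modifications of the base point, must hold for the sum of
the others (after Gurjar, Korwar, Saxena and Thierauf).
-/

namespace Pool.Agent.Results.MP_e2be99_lc.ConstantWidthROABPSums

open MvPolynomial

/-- `p` is computed by a read-once oblivious algebraic branching program of width `w`, reading the
variables in some order `σ`. -/
def ComputedByROABP {K : Type*} [Field K] {n : ℕ} (w : ℕ) (p : MvPolynomial (Fin n) K) : Prop :=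
  ∃ (σ : Equiv.Perm (Fin n)) (M : Fin n → Matrix (Fin w) (Fin w) (Polynomial K))
    (u v : Fin w → K),
    p = ∑ a, ∑ b, C (u a) * (List.ofFn fun l : Fin n =>
      (M l).map (Polynomial.aeval (X (σ l) : MvPolynomial (Fin n) K))).prod a b * C (v b)

/-- auxiliary number -/
def rowMods (w r k : ℕ) : ℕ := (r * k + 1) * ((w * r + 1) ^ w * 2)

/-- auxiliary number, defined by recursion on the number of summands -/
def sumMods (w : ℕ) : ℕ → ℕ → ℕ → ℕ
  | 0, _, _ => 0
  | c + 1, r, k =>
    rowMods w r k + 1 + sumMods w c (r * ((w * r + 1) + (w * r + 1))) (k + (rowMods w r k + 1))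

/-- the number of copies of the basic generator; it depends on the width and the number of summands
only -/
def numSeeds (w c : ℕ) : ℕ := w * ((w ^ w + 1) ^ w * 2) + sumMods w c 1 0

/-- the points of the generator: `h_i = ∑_c y_c ∏_{j ≠ i} (z_c - j)` -/
def genPoint (n q : ℕ) (s : Fin q ⊕ Fin q → ℤ) (i : Fin n) : ℤ :=
  ∑ c, s (Sum.inl c) * ∏ j ∈ Finset.univ.erase i, (s (Sum.inr c) - ((j : ℕ) : ℤ))

/-- the hitting set: all seeds run through `{0, …, n D}` -/
def hitSet (w c n D : ℕ) : Finset (Fin n → ℤ) :=
  (Finset.univ : Finset (Fin (numSeeds w c) ⊕ Fin (numSeeds w c) → Fin (n * D + 1))).image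
    fun s => genPoint n (numSeeds w c) fun t => ((s t : ℕ) : ℤ)

theorem card_hitSet (w c n D : ℕ) :
    (hitSet w c n D).card ≤ (n * D + 1) ^ (2 * numSeeds w c) := by
  unfold hitSet
  refine Finset.card_image_le.trans ?_
  rw [Finset.card_univ, Fintype.card_fun, Fintype.card_sum, Fintype.card_fin, Fintype.card_fin,
    two_mul]

theorem size_hitSet (w c n D : ℕ) : ∀ h ∈ hitSet w c n D, ∀ i,
    |h i| ≤ numSeeds w c * (n * D) * (n * D + n) ^ (n - 1) := by
  intro h hh i
  unfold hitSet at hh
  rw [Finset.mem_image] at hh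
  obtain ⟨s, _, rfl⟩ := hh
  unfold genPoint
  refine (Finset.abs_sum_le_sum_abs _ _).trans ?_
  have hs : ∀ c, (0 : ℤ) ≤ ((s c : ℕ) : ℤ) ∧ ((s c : ℕ) : ℤ) ≤ n * D := by
    intro c
    have := (s c).2
    refine ⟨by positivity, ?_⟩
    exact_mod_cast Nat.lt_succ_iff.mp this
  have hb : ∀ t ∈ (Finset.univ : Finset (Fin (numSeeds w c))),
      |((s (Sum.inl t) : ℕ) : ℤ) * ∏ j ∈ Finset.univ.erase i, (((s (Sum.inr t) : ℕ) : ℤ)
        - (((j : Fin n) : ℕ) : ℤ))| ≤ (n * D) * (n * D + n) ^ (n - 1) := by
    intro t _
    rw [abs_mul, Finset.abs_prod]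
    apply mul_le_mul
    · rw [abs_of_nonneg (hs _).1]
      exact (hs _).2
    · have : ∏ j ∈ Finset.univ.erase i, |((s (Sum.inr t) : ℕ) : ℤ) - (((j : Fin n) : ℕ) : ℤ)|
          ≤ ∏ _j ∈ Finset.univ.erase i, ((n : ℤ) * D + n) := by
        apply Finset.prod_le_prod
        · intro j _
          positivity
        · intro j _
          have h1 := hs (Sum.inr t)
          have h2 : (((j : Fin n) : ℕ) : ℤ) ≤ n := by exact_mod_cast j.2.le
          have h3 : (0 : ℤ) ≤ (((j : Fin n) : ℕ) : ℤ) := by positivity
          rw [abs_le]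
          constructor <;> linarith [h1.1, h1.2]
      refine this.trans (le_of_eq ?_)
      rw [Finset.prod_const, Finset.card_erase_of_mem (Finset.mem_univ i), Finset.card_univ,
        Fintype.card_fin]
    · positivity
    · positivity
  refine (Finset.sum_le_card_nsmul _ _ _ hb).trans (le_of_eq ?_)
  rw [Finset.card_univ, Fintype.card_fin, nsmul_eq_mul]
  ring

section Proof

variable {K : Type*} [Field K]

/-- extending a permutation of `Fin n` to `ℕ` -/
noncomputable def extP {n : ℕ} (σ : Equiv.Perm (Fin n)) : Equiv.Perm ℕ :=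
  σ.extendDomain (Fin.equivSubtype : Fin n ≃ {i // i < n})

theorem extP_apply {n : ℕ} (σ : Equiv.Perm (Fin n)) (l : Fin n) : extP σ l = (σ l : ℕ) :=
  Equiv.Perm.extendDomain_apply_image σ (Fin.equivSubtype : Fin n ≃ {i // i < n}) l

theorem extP_symm_lt {n : ℕ} (σ : Equiv.Perm (Fin n)) (v : ℕ) :
    (extP σ).symm v < n ↔ v < n := by
  have key : ∀ l : ℕ, l < n ↔ extP σ l < n := by
    intro l
    by_cases h : l < n
    · have := extP_apply σ ⟨l, h⟩
      simp only at this
      rw [this]
      exact ⟨fun _ => (σ ⟨l, h⟩).2, fun _ => h⟩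
    · have : extP σ l = l := Equiv.Perm.extendDomain_apply_not_subtype σ _ h
      rw [this]
  rw [key]
  simp

/-- extending a sequence of matrices -/
noncomputable def extM {n w : ℕ} (M : Fin n → Matrix (Fin w) (Fin w) (Polynomial K)) (l : ℕ)
    (t : K) : Matrix (Fin w) (Fin w) K :=
  if h : l < n then (M ⟨l, h⟩).map (Polynomial.eval t) else 1

theorem extM_poly {n w : ℕ} (M : Fin n → Matrix (Fin w) (Fin w) (Polynomial K)) :
    ∀ l, ∀ a b, ∃ p : Polynomial K, ∀ t, p.eval t = extM M l t a b := by
  intro l a b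
  unfold extM
  split_ifs with h
  · exact ⟨M ⟨l, h⟩ a b, fun t => by simp⟩
  · exact ⟨Polynomial.C ((1 : Matrix (Fin w) (Fin w) K) a b), fun t => by simp⟩

theorem ofFn_eq {n w : ℕ} (M : Fin n → Matrix (Fin w) (Fin w) (Polynomial K)) (x : ℕ → K) :
    (List.ofFn fun l : Fin n => (M l).map (Polynomial.eval (x l))).prod =
      Pool.Agent.W2helper94.PIT.cp (extM M) x 0 n := by
  unfold Pool.Agent.W2helper94.PIT.cp
  congr 1
  rw [List.Ico.zero_bot]
  apply List.ext_getElem
  · simp
  · intro l h1 h2
    have hl : l < n := by simpa using h1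
    simp [extM, hl]

theorem eval_roabp {n w : ℕ} (σ : Equiv.Perm (Fin n))
    (M : Fin n → Matrix (Fin w) (Fin w) (Polynomial K)) (u v : Fin w → K) (x : Fin n → K)
    (x' : ℕ → K) (hx : ∀ l : Fin n, x' l = x (σ l)) :
    eval x (∑ a, ∑ b, C (u a) * (List.ofFn fun l : Fin n =>
      (M l).map (Polynomial.aeval (X (σ l) : MvPolynomial (Fin n) K))).prod a b * C (v b)) =
    dotProduct u (Matrix.mulVec (Pool.Agent.W2helper94.PIT.cp (extM M) x' 0 n) v) := by
  have h1 : ((List.ofFn fun l : Fin n =>
      (M l).map (Polynomial.aeval (X (σ l) : MvPolynomial (Fin n) K))).prod).map (eval x) =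
      Pool.Agent.W2helper94.PIT.cp (extM M) x' 0 n := by
    rw [← ofFn_eq]
    have h2 := map_list_prod (RingHom.mapMatrix (m := Fin w) (eval x)) (List.ofFn fun l : Fin n =>
      (M l).map (Polynomial.aeval (X (σ l) : MvPolynomial (Fin n) K)))
    rw [RingHom.mapMatrix_apply] at h2
    rw [h2, List.map_ofFn]
    congr 2
    funext l
    ext a b
    simp only [Function.comp_apply, RingHom.mapMatrix_apply, Matrix.map_apply]
    rw [hx]
    have h3 := Polynomial.hom_eval₂ (M l a b) (algebraMap K (MvPolynomial (Fin n) K))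
      (MvPolynomial.eval x) (X (σ l))
    rw [Polynomial.aeval_def, h3, MvPolynomial.eval_X]
    have h4 : (MvPolynomial.eval x).comp (algebraMap K (MvPolynomial (Fin n) K)) =
        RingHom.id K := by
      ext c
      simp
    rw [h4]
    rfl
  rw [← h1]
  simp only [map_sum, map_mul, eval_C, dotProduct, Matrix.mulVec, Matrix.map_apply,
    Finset.mul_sum, mul_assoc]

/-- the polynomial form of the generator -/
noncomputable def genPoly (K : Type*) [Field K] (n q : ℕ) (i : Fin n) :
    MvPolynomial (Fin q ⊕ Fin q) K :=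
  ∑ c, X (Sum.inl c) * ∏ j ∈ Finset.univ.erase i, (X (Sum.inr c) - C (((j : Fin n) : ℕ) : K))

theorem genPoly_degree (n q : ℕ) (i : Fin n) : (genPoly K n q i).totalDegree ≤ n := by
  unfold genPoly
  apply totalDegree_finsetSum_le
  intro c _
  refine (totalDegree_mul _ _).trans ?_
  have h1 : (X (Sum.inl c) : MvPolynomial (Fin q ⊕ Fin q) K).totalDegree ≤ 1 :=
    (totalDegree_X _).le
  have h2 : (∏ j ∈ Finset.univ.erase i,
      (X (Sum.inr c) - C (((j : Fin n) : ℕ) : K)) : MvPolynomial (Fin q ⊕ Fin q) K).totalDegree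
      ≤ n - 1 := by
    refine (totalDegree_finsetProd _ _).trans ?_
    have : ∀ j ∈ Finset.univ.erase i,
        (X (Sum.inr c) - C (((j : Fin n) : ℕ) : K) : MvPolynomial (Fin q ⊕ Fin q) K).totalDegree
          ≤ 1 := by
      intro j _
      refine (totalDegree_sub _ _).trans ?_
      rw [totalDegree_X, totalDegree_C]
      simp
    refine (Finset.sum_le_card_nsmul _ _ _ this).trans (le_of_eq ?_)
    rw [Finset.card_erase_of_mem (Finset.mem_univ i), Finset.card_univ, Fintype.card_fin]
    simp
  have := i.pos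
  omega

theorem totalDegree_bind {n : ℕ} {τ : Type*} (g : Fin n → MvPolynomial τ K) (B : ℕ)
    (hg : ∀ i, (g i).totalDegree ≤ B) (p : MvPolynomial (Fin n) K) :
    (bind₁ g p).totalDegree ≤ B * p.totalDegree := by
  classical
  have h1 : bind₁ g p = ∑ d ∈ p.support, C (coeff d p) * ∏ i ∈ d.support, g i ^ d i := by
    conv_lhs => rw [p.as_sum]
    rw [map_sum]
    refine Finset.sum_congr rfl fun d _ => ?_
    rw [bind₁_monomial]
  rw [h1]
  apply totalDegree_finsetSum_le
  intro d hd
  refine (totalDegree_mul _ _).trans ?_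
  rw [totalDegree_C, zero_add]
  refine (totalDegree_finsetProd _ _).trans ?_
  have h2 : ∀ i ∈ d.support, (g i ^ d i).totalDegree ≤ B * d i := by
    intro i _
    refine (totalDegree_pow _ _).trans ?_
    rw [mul_comm]
    exact Nat.mul_le_mul_right _ (hg i)
  refine (Finset.sum_le_sum h2).trans ?_
  rw [← Finset.mul_sum]
  apply Nat.mul_le_mul_left
  exact le_totalDegree hd

theorem eval_genPoly {n q : ℕ} (p : MvPolynomial (Fin n) K) (s : Fin q ⊕ Fin q → K) :
    eval s (bind₁ (genPoly K n q) p) =
      eval (fun i => ∑ c, s (Sum.inl c) * ∏ j ∈ Finset.univ.erase i,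
        (s (Sum.inr c) - (((j : Fin n) : ℕ) : K))) p := by
  have h1 : eval s (bind₁ (genPoly K n q) p) = eval (fun i => eval s (genPoly K n q i)) p := by
    simp only [← coe_aeval_eq_eval, RingHom.coe_coe]
    rw [← AlgHom.comp_apply]
    congr 1
    ext i
    simp
  rw [h1]
  congr 2
  funext i
  simp [genPoly, map_sum, map_prod]

theorem prod_erase_eq {n : ℕ} (i : Fin n) (t : K) :
    ∏ j ∈ (Finset.univ : Finset (Fin n)).erase i, (t - (((j : Fin n) : ℕ) : K)) =
      ∏ j ∈ (Finset.range n).erase (i : ℕ), (t - (j : K)) := by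
  apply Finset.prod_bij (fun (j : Fin n) _ => (j : ℕ))
  · intro j hj
    rw [Finset.mem_erase] at hj ⊢
    exact ⟨fun h => hj.1 (Fin.ext h), Finset.mem_range.mpr j.2⟩
  · intro j _ j' _ h
    exact Fin.ext h
  · intro j hj
    rw [Finset.mem_erase, Finset.mem_range] at hj
    refine ⟨⟨j, hj.2⟩, ?_, rfl⟩
    rw [Finset.mem_erase]
    exact ⟨fun h => hj.1 (by rw [← h]), Finset.mem_univ _⟩
  · intro j _
    rfl

theorem numSeeds_bounds {w : ℕ} (hw : 1 ≤ w) :
    ∀ t ≤ w, ∀ ρ ≤ w, (Fintype.card (Fin ρ → Fin w) + 1) ^ t * 2 ≤ (w ^ w + 1) ^ w * 2 := by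
  intro t ht ρ hρ
  apply Nat.mul_le_mul_right
  rw [Fintype.card_fun, Fintype.card_fin, Fintype.card_fin]
  have h1 : w ^ ρ ≤ w ^ w := Nat.pow_le_pow_right hw hρ
  calc (w ^ ρ + 1) ^ t ≤ (w ^ w + 1) ^ t := Nat.pow_le_pow_left (by omega) t
    _ ≤ (w ^ w + 1) ^ w := Nat.pow_le_pow_right (by omega) ht

theorem sumMods_eq (w : ℕ) : ∀ c r k, sumMods w c r k = Pool.Agent.W2helper94.PIT.Rc w c r k := by
  intro c
  induction c with
  | zero => intro r k; rfl
  | succ c ih =>
    intro r k
    show rowMods w r k + 1 + sumMods w c _ _ = _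
    rw [ih]
    rfl

/-- the generator does not kill a nonzero sum of polynomials computed by width `w` ROABPs -/
theorem bind_ne_zero [CharZero K] {n w c : ℕ} {p : Fin c → MvPolynomial (Fin n) K}
    (hp : ∀ i, ComputedByROABP w (p i)) (h0 : ∑ i, p i ≠ 0) :
    bind₁ (genPoly K n (numSeeds w c)) (∑ i, p i) ≠ 0 := by
  -- the width is positive
  have hw : 1 ≤ w := by
    by_contra hcon
    have hw0 : w = 0 := by omega
    subst hw0
    apply h0
    apply Finset.sum_eq_zero
    intro i _
    obtain ⟨σ, M, u, v, h⟩ := hp i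
    rw [h]
    simp
  choose σ M u v hpe using hp
  have : Infinite K := inferInstance
  -- a point where the value is nonzero
  have hex : ∃ x : Fin n → K, eval x (∑ i, p i) ≠ 0 := by
    by_contra hcon
    push Not at hcon
    exact h0 (MvPolynomial.funext fun x => by rw [hcon x, map_zero])
  obtain ⟨x, hx⟩ := hex
  have heval : ∀ (x' : ℕ → K), eval (fun l : Fin n => x' l) (∑ i, p i) =
      ∑ i, Pool.Agent.W2helper94.PIT.chainF (extM (M i)) n (extP (σ i)) (u i) (v i) x' := by
    intro x'
    rw [map_sum]
    refine Finset.sum_congr rfl fun i _ => ?_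
    rw [hpe i, eval_roabp (σ i) (M i) (u i) (v i) (fun l : Fin n => x' l)
      (fun l => x' (extP (σ i) l)) (fun l => by rw [extP_apply])]
    rfl
  let x0 : ℕ → K := fun l => if h : l < n then x ⟨l, h⟩ else 0
  have hx0 : (fun l : Fin n => x0 l) = x := by
    funext l
    simp [x0]
  rw [← hx0, heval] at hx
  have hb := numSeeds_bounds hw
  obtain ⟨s, hs⟩ := Pool.Agent.W2helper94.PIT.gen_hits_sum (K := (w ^ w + 1) ^ w * 2)
    (fun i => extM_poly (M i)) (fun i => extP_symm_lt (σ i)) (by simpa using hb) u v hx
  rw [Fintype.card_fin, ← sumMods_eq, ← heval] at hs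
  intro hcon
  let s' : Fin (numSeeds w c) ⊕ Fin (numSeeds w c) → K :=
    Sum.elim (fun t => s (Sum.inl t)) (fun t => s (Sum.inr t))
  have h1 := eval_genPoly (q := numSeeds w c) (∑ i, p i) s'
  rw [hcon, map_zero] at h1
  apply hs
  rw [h1]
  congr 2
  funext l
  show Pool.Agent.W2helper94.PIT.G n id (numSeeds w c) s (l : ℕ) = _
  unfold Pool.Agent.W2helper94.PIT.G
  rw [Finset.sum_range]
  refine Finset.sum_congr rfl fun t _ => ?_
  rw [id, ← prod_erase_eq]
  rfl

end Proof

/-- **Polynomial identity testing for sums of constantly many read-once oblivious algebraic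
branching programs of constant width, each in its own unknown variable order.** -/
theorem result.{u} (w c n D : ℕ) :
    (hitSet w c n D).card ≤ (n * D + 1) ^ (2 * numSeeds w c) ∧
    (∀ h ∈ hitSet w c n D, ∀ i, |h i| ≤ numSeeds w c * (n * D) * (n * D + n) ^ (n - 1)) ∧
    ∀ (K : Type u) [Field K] [CharZero K] (r : ℕ) (p : Fin r → Fin c → MvPolynomial (Fin n) K),
      (∀ k i, ComputedByROABP w (p k i)) → (∏ k, ∑ i, p k i).totalDegree ≤ D →
        (∏ k, ∑ i, p k i) ≠ 0 →
        ∃ h ∈ hitSet w c n D, eval (fun i => (h i : K)) (∏ k, ∑ i, p k i) ≠ 0 := by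
  refine ⟨card_hitSet w c n D, size_hitSet w c n D, ?_⟩
  intro K _ _ r p hp hdeg hne
  classical
  have h1 : bind₁ (genPoly K n (numSeeds w c)) (∏ k, ∑ i, p k i) ≠ 0 := by
    rw [map_prod, Finset.prod_ne_zero_iff]
    intro k _
    exact bind_ne_zero (hp k) ((Finset.prod_ne_zero_iff.mp hne) k (Finset.mem_univ k))
  have hdeg' : (bind₁ (genPoly K n (numSeeds w c)) (∏ k, ∑ i, p k i)).totalDegree ≤ n * D :=
    (totalDegree_bind _ n (fun i => genPoly_degree n _ i) _).trans (Nat.mul_le_mul_left n hdeg)
  by_contra hcon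
  push Not at hcon
  apply h1
  let S : Finset K := (Finset.range (n * D + 1)).image (fun t : ℕ => (t : K))
  have hS : S.card = n * D + 1 := by
    rw [Finset.card_image_of_injective _ Nat.cast_injective, Finset.card_range]
  apply eq_zero_of_eval_zero_at_prod_finset _ (fun _ => S)
  · intro i
    rw [hS]
    exact Nat.lt_succ_of_le ((degreeOf_le_totalDegree _ _).trans hdeg')
  · intro x hx
    have hx' : ∀ t, ∃ t' : Fin (n * D + 1), x t = ((t' : ℕ) : K) := by
      intro t
      obtain ⟨t', ht, h⟩ := Finset.mem_image.mp (hx t)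
      exact ⟨⟨t', Finset.mem_range.mp ht⟩, h.symm⟩
    choose t ht using hx'
    rw [eval_genPoly]
    have := hcon (genPoint n (numSeeds w c) fun c => ((t c : ℕ) : ℤ)) (by
      unfold hitSet
      exact Finset.mem_image.mpr ⟨t, Finset.mem_univ _, rfl⟩)
    rw [← this]
    congr 2
    funext i
    unfold genPoint
    push_cast
    simp only [ht]

end Pool.Agent.Results.MP_e2be99_lc.ConstantWidthROABPSums
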