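import Pool.Agent.W2helper94.CV.I

set_option autoImplicit false

/-!
# MP_5168f5: the Kakeya maximal estimate for tubes that are concurrent over the level surfaces of a
convex function

Work in `ℝ^{d+1} = ℝ^d × ℝ` (`Space d`), `n = d + 1 ≥ 2`.  For `v` in the closed unit ball of `ℝ^d` the
line number `v` of the family given by `b : ℝ^d → ℝ^d` is `{(b v + s v, s) : s ∈ ℝ}`; its direction
is `(v, 1)`.  `lineMax δ b f v` is the supremum of the averages of `|f|` over the `δ`-tubes of length
one with axis on the line number `v`.  By measurable selection the Kakeya maximal conjecture is the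
estimate below for *all* measurable `b`.

Let `φ` be a convex function on `ℝ^d` and let `D` be a measurable set of directions in the unit ball on
which `φ(v) ≥ φ(v₀) + κ |v - v₀|` for some point `v₀` and some `κ > 0`.  (If `φ` has no minimum in the
closed unit ball, this holds for the whole ball, with a suitable `v₀` outside: affine functions, `e^(c·v)`,
... .  If `φ` is a norm, the gauge of any convex body, or any convex function with a sharp
minimum, it also holds for the whole ball, with the minimum point `v₀`.  In general it holds for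
the set `φ ≥ min φ + γ`, `γ > 0`.)

The family is *concurrent* over the level surfaces of `φ` if all the lines whose directions have the
same value `φ(v) = a` pass through one common point, the vertex `(x a, σ a)`.  The vertices are
arbitrary measurable functions of `a`: no regularity and no genericity.

**Theorem.** The maximal function of every such family satisfies the estimate of the Kakeya maximal
conjecture: at the critical exponent `p = n` with a logarithmic loss, and at `2 ≤ p ≤ n` with the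
sharp power `δ^(-(n-p))`, up to logarithms.  The constants depend on `d`, `φ`, `v₀`, `κ` and `p` only.

Idea of the proof.  Let `w` be a direction with `φ(w) = a' < a`.  As `φ` is convex, the line number `w` is
within `r` of the cone of the lines of label `a` only for a set of heights of length `C r / (a - a')`,
whatever the vertex is.  Hence the lines of *larger* label which are `r`-close to a given line are
few; this one sided bound suffices for the estimate for all sets of directions.
-/

open MeasureTheory Set ENNReal NNReal Metric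

namespace Pool.Agent.Results.MP_5168f5_an.ConvexConcurrence

/-- Euclidean space `ℝ^d`. -/
abbrev Vec (d : ℕ) : Type := EuclideanSpace ℝ (Fin d)

/-- Euclidean space `ℝ^{d+1}`, written as `ℝ^d × ℝ` with the Euclidean norm. -/
abbrev Space (d : ℕ) : Type := WithLp 2 (Vec d × ℝ)

/-- The closed tube of length `1` and radius `δ` with centre `a` and axis direction `e`. -/
def tube {d : ℕ} (δ : ℝ) (e a : Space d) : Set (Space d) :=
  {y | |inner ℝ (y - a) e| ≤ 1 / 2 ∧ ‖(y - a) - (inner ℝ (y - a) e : ℝ) • e‖ ≤ δ}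

/-- The unit vector `(v, 1)/√(1+|v|²)`. -/
noncomputable def dir {d : ℕ} (v : Vec d) : Space d :=
  (√(1 + ‖v‖ ^ 2))⁻¹ • WithLp.toLp 2 (v, (1:ℝ))

/-- The point of height `s` on the line `{(b v + s v, s)}`. -/
noncomputable def linePt {d : ℕ} (b : Vec d → Vec d) (v : Vec d) (s : ℝ) : Space d :=
  WithLp.toLp 2 (b v + s • v, s)

/-- Supremum of the averages of `|f|` over the `δ`-tubes with axis on the line number `v`. -/
noncomputable def lineMax {d : ℕ} (δ : ℝ) (b : Vec d → Vec d) (f : Space d → ℝ) (v : Vec d) : ℝ≥0∞ :=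
  ⨆ s : ℝ, (volume (tube δ (dir v) (linePt b v s)))⁻¹ *
    ∫⁻ y in tube δ (dir v) (linePt b v s), ‖f y‖ₑ

/-- For every `v ∈ D` the line number `v` passes through the vertex `(x a, σ a)`, `a = φ v`. -/
def Concurrent {d : ℕ} (D : Set (Vec d)) (φ : Vec d → ℝ) (x : ℝ → Vec d) (σ : ℝ → ℝ)
    (b : Vec d → Vec d) : Prop :=
  ∀ v ∈ D, b v + σ (φ v) • v = x (φ v)

open Pool.Agent.W2helper94.KC Pool.Agent.W2helper94.CV

theorem lineMax_congr' {d : ℕ} {δ : ℝ} {b b' : Vec d → Vec d} (f : Space d → ℝ) {v : Vec d}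
    (h : b v = b' v) : lineMax δ b f v = lineMax δ b' f v := by
  unfold lineMax linePt
  rw [h]

/-- The row bound for the families of concurrent lines. -/
theorem rowBd {m : ℕ} {φ : Vec (m + 1) → ℝ} {v₀ : Vec (m + 1)} {κ : ℝ} (h : Sharp φ v₀ κ) :
    ∃ C : ℝ, 0 < C ∧ ∀ (x : ℝ → Vec (m + 1)) (σ : ℝ → ℝ), Measurable x → Measurable σ →
      ∀ D : Set (Vec (m + 1)), MeasurableSet D → D ⊆ closedBall 0 1 →
      RowBd D φ (fun v => x (φ v) - σ (φ v) • v) (fun v => σ (φ v)) C := by
  obtain ⟨C, hC, hrow⟩ := row h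
  refine ⟨C, hC, ?_⟩
  intro x σ hx hσ D hD hDB r lam c hr hl hrl w hw
  have hw1 : ‖w‖ ≤ 1 := by simpa using hDB hw
  refine le_trans ?_ (hrow x σ hx hσ r lam c (x (φ w) - σ (φ w) • w) w hr hl hrl hw1)
  rw [← lintegral_indicator hD]
  apply lintegral_mono
  intro v
  by_cases hv : v ∈ D
  · have hv1 : ‖v‖ ≤ 1 := by simpa using hDB hv
    simp only
    rw [indicator_of_mem hv, ic_of_le hv1, one_mul]
    apply le_of_eq
    congr 1
    refine lintegral_congr fun s => ?_
    have e : x (φ v) - σ (φ v) • v + s • v = x (φ v) + (s - σ (φ v)) • v := by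
      rw [sub_smul]
      abel
    rw [e]
  · rw [indicator_of_notMem hv]
    exact zero_le

theorem maxSharp {d : ℕ} {φ : Vec d → ℝ} (hφ : ConvexOn ℝ univ φ) (v₀ : Vec d) {κ : ℝ} (hκ : 0 < κ) :
    Sharp (fun v => max (φ v) (φ v₀ + κ * ‖v - v₀‖)) v₀ κ := by
  refine ⟨?_, hκ, ?_⟩
  · apply hφ.sup
    have h1 : ConvexOn ℝ univ (fun v : Vec d => ‖v - v₀‖) := by
      have h := (convexOn_univ_norm (E := Vec d)).translate_right (-v₀)
      have e : (fun v : Vec d => ‖v - v₀‖) = (norm ∘ fun z : Vec d => -v₀ + z) := by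
        funext v
        simp [sub_eq_neg_add]
      rw [e]
      simpa using h
    exact (convexOn_const (φ v₀) convex_univ).add (h1.smul hκ.le)
  · intro v
    simp only [sub_self, norm_zero, mul_zero, add_zero, max_self]
    exact le_max_right _ _

/-- **The Kakeya maximal estimate for families of lines which are concurrent over the level surfaces of
a convex function.** -/
theorem result (d : ℕ) (hd : 1 ≤ d) (φ : Vec d → ℝ) (hφ : ConvexOn ℝ univ φ) (v₀ : Vec d) (κ : ℝ)
    (hκ : 0 < κ) :
    ∃ C : ℝ → ℝ, ∀ D : Set (Vec d), MeasurableSet D → D ⊆ closedBall 0 1 →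
      (∀ v ∈ D, φ v₀ + κ * ‖v - v₀‖ ≤ φ v) →
      ∀ (x : ℝ → Vec d) (σ : ℝ → ℝ) (b : Vec d → Vec d), Measurable x → Measurable σ →
      Concurrent D φ x σ b →
      ∀ (p δ : ℝ) (f : Space d → ℝ), 2 ≤ p → 0 < δ → δ < 1 → AEMeasurable f volume →
      ∫⁻ v in D, lineMax δ b f v ^ p ≤
        ENNReal.ofReal (C p * (1 + Real.log (1 / δ)) ^ (p + 2) *
          δ ^ (-(max 0 ((d : ℝ) + 1 - p)))) * ∫⁻ y, ‖f y‖ₑ ^ p := by
  obtain ⟨m, rfl⟩ : ∃ m, d = m + 1 := ⟨d - 1, by omega⟩
  set ψ : Vec (m + 1) → ℝ := fun v => max (φ v) (φ v₀ + κ * ‖v - v₀‖) with hψ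
  have hsh : Sharp ψ v₀ κ := maxSharp hφ v₀ hκ
  obtain ⟨C0, hC0, hrow⟩ := rowBd hsh
  have hK : ∀ p : ℝ, ∃ K : ℝ, 2 ≤ p → ∀ (D : Set (E (m + 1))) (φ : E (m + 1) → ℝ)
    (b : E (m + 1) → E (m + 1)) (τ : E (m + 1) → ℝ), RowBd D φ b τ C0 → Measurable φ →
    Measurable b → Measurable τ →
    MeasurableSet D → D ⊆ closedBall 0 1 → ∀ (δ : ℝ), 0 < δ → δ < 1 →
    ∀ (f : Space (m + 1) → ℝ), Measurable f →
    ∫⁻ v in D, Pool.Agent.H803R2.KakFTO.lineMax δ b f v ^ p ≤
      ENNReal.ofReal (K * (1 + Real.log (1 / δ)) ^ (p + 2) * loss (m + 1) p δ) *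
        ∫⁻ y, ‖f y‖ₑ ^ p := by
    intro p
    by_cases hp : 2 ≤ p
    · obtain ⟨K, -, hK⟩ := lines hd hC0.le hp
      exact ⟨K, fun _ => hK⟩
    · exact ⟨0, fun h => absurd h hp⟩
  choose K hK using hK
  refine ⟨K, ?_⟩
  intro D hD hDB hmin x σ b hx hσ hb p δ f hp hδ hδ1 hf
  have hψD : ∀ v ∈ D, ψ v = φ v := fun v hv => max_eq_left (hmin v hv)
  have hψm : Measurable ψ := hsh.cont.measurable
  set b' : Vec (m + 1) → Vec (m + 1) := fun v => x (ψ v) - σ (ψ v) • v with hb'
  have hb'm : Measurable b' := (hx.comp hψm).sub ((hσ.comp hψm).smul measurable_id)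
  have hbb : ∀ v ∈ D, b v = b' v := by
    intro v hv
    rw [hb']
    simp only
    rw [hψD v hv, ← hb v hv]
    abel
  have hmain := hK p hp D ψ b' (fun v => σ (ψ v)) (hrow x σ hx hσ D hD hDB) hψm hb'm
    (hσ.comp hψm) hD hDB δ hδ hδ1 (hf.mk f) hf.measurable_mk
  have e1 : ∫⁻ y, ‖f y‖ₑ ^ p = ∫⁻ y, ‖hf.mk f y‖ₑ ^ p := by
    apply lintegral_congr_ae
    filter_upwards [hf.ae_eq_mk] with q hq
    rw [hq]
  have e2 : ∫⁻ v in D, lineMax δ b f v ^ p =
      ∫⁻ v in D, Pool.Agent.H803R2.KakFTO.lineMax δ b' (hf.mk f) v ^ p := by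
    apply setLIntegral_congr_fun hD
    intro v hv
    have h1 : lineMax δ b f v = Pool.Agent.H803R2.KakFTO.lineMax δ b' (hf.mk f) v := by
      rw [lineMax_congr' f (hbb v hv)]
      exact Pool.Agent.H803R2.KakFTO.lineMax_congr b' v hf.ae_eq_mk
    show lineMax δ b f v ^ p = _
    rw [h1]
  rw [e1, e2]
  refine hmain.trans (le_of_eq ?_)
  unfold loss
  push_cast
  rfl

end Pool.Agent.Results.MP_5168f5_an.ConvexConcurrence
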