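import Pool.Agent.W2lead.CircSum

set_option autoImplicit false

/-!
# Superlinear lower bounds for circuits with local sharing

Circuits have fan-in two over the full binary basis (see `Pool.Agent.W2lead.Circ.Circuit`). The explicit function
is element distinctness: with `k = ⌊log₂ n⌋` the input `x ∈ {0,1}^n` is cut into `⌊n / (2 k)⌋` consecutive
words of length `2 k`, and the value is `1` if these words are pairwise different.

For a circuit `C` let `W_s(C)` be the number of wires which leave gates that have fan-out at least two and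
depend on more than `s` inputs. We show that there is `c > 0` such that every circuit `C` for this function,
without any restriction, satisfies `s * |C| + (n / log n) * W_s(C) ≥ c * n^2 / log n` for all `s ≥ 1`.
In particular circuits in which all gates that depend on more than `s` inputs have fan-out at most one have
size at least `c * n^2 / (s * log n)`, which is superlinear for `s = o(n / log n)`; the gates which depend on at most
`s` inputs may be shared arbitrarily. (For `s = 1` this is Nechiporuk's bound for formulas.) And if `|C| ≤ K * n`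
then at least `(c / 2) * n` wires leave gates of fan-out at least two which depend on more than
`c * n / (2 * K * log n)` inputs (when this number is at least one).
-/

open Finset Classical Pool.Agent.W2lead.Circ

namespace Pool.Agent.Results.MP_22d2c8_lc.LocalSharing

/-- Element distinctness: with `k = ⌊log₂ n⌋`, the first `⌊n / (2 k)⌋` consecutive words of length `2 k` of the
input are pairwise different. -/
noncomputable def elementDistinctness (n : ℕ) : (Fin n → Bool) → Bool :=
  distinctWords (2 * Nat.log 2 n) (n / (2 * Nat.log 2 n))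

theorem nat_bound {n k : ℕ} (hk : k = Nat.log 2 n) (hk16 : 16 ≤ k) (C : Circuit n)
    (hC : C.Computes (distinctWords (2 * k) (n / (2 * k)))) (s : ℕ) (hs : 1 ≤ s) :
    (k / 2) * (n / (2 * k) - 1) * (n / (2 * k)) ≤
      2 * (n / (2 * k)) + 4 * (2 * s * C.m + (n / (2 * k)) * C.wideWires s) := by
  obtain ⟨t, ht⟩ : ∃ t, t = n / (2 * k) := ⟨_, rfl⟩
  rw [← ht] at hC ⊢
  have hn0 : n ≠ 0 := by
    rintro rfl
    simp at hk
    omega
  have h2k : 2 ^ k ≤ n := by rw [hk]; exact Nat.pow_log_le_self 2 hn0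
  have hn2 : n < 2 ^ (k + 1) := by rw [hk]; exact Nat.lt_pow_succ_log_self (by norm_num) n
  have hp : ∀ p : ℕ, 4 ≤ p → 4 * p ≤ 2 ^ p := by
    intro p hp
    induction p, hp using Nat.le_induction with
    | base => norm_num
    | succ p hp ih => rw [pow_succ]; omega
  have htl : 2 ^ (k / 2) ≤ t := by
    rw [ht, Nat.le_div_iff_mul_le (by omega)]
    have h1 : 2 * k ≤ 2 ^ (k - k / 2) := by
      have := hp (k - k / 2) (by omega)
      omega
    calc 2 ^ (k / 2) * (2 * k) ≤ 2 ^ (k / 2) * 2 ^ (k - k / 2) := Nat.mul_le_mul_left _ h1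
      _ = 2 ^ k := by rw [← pow_add]; congr 1; omega
      _ ≤ n := h2k
  have ht2 : 2 ≤ t := by
    refine le_trans ?_ htl
    calc 2 = 2 ^ 1 := by norm_num
      _ ≤ 2 ^ (k / 2) := Nat.pow_le_pow_right (by norm_num) (by omega)
  have htb : t * (2 * k) ≤ n := by rw [ht]; exact Nat.div_mul_le_self _ _
  have hM : t ^ 2 ≤ 2 ^ (2 * k) := by
    have h1 : t * 2 ≤ 2 ^ (k + 1) := by
      calc t * 2 ≤ t * (2 * k) := Nat.mul_le_mul_left _ (by omega)
        _ ≤ n := htb
        _ ≤ 2 ^ (k + 1) := hn2.le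
    have h2 : t ≤ 2 ^ k := by rw [pow_succ] at h1; omega
    calc t ^ 2 ≤ (2 ^ k) ^ 2 := Nat.pow_le_pow_left h2 2
      _ = 2 ^ (2 * k) := by rw [← pow_mul, mul_comm]
  have hsub : ∀ q ∈ range t, t ^ (t - 1) ≤
      subCount ({i : Fin n | i.val / (2 * k) = q} : Finset (Fin n)) (fun x => C.val x C.out) := by
    intro q hq
    have h1 := subCount_distinct (n := n) (b := 2 * k) (t := t) (q := q) (by omega) htb
      (Finset.mem_range.1 hq)
    have h2 : (fun x => C.val x C.out) = distinctWords (2 * k) t := funext hC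
    rw [h2]
    exact (choose_ge ht2 hM).trans h1
  have hprod := prod_subCount_le C (fun i : Fin n => i.val / (2 * k)) t s hs
  have h1 : (t ^ (t - 1)) ^ t ≤ 2 ^ (2 * t + 4 * (2 * s * C.m + t * C.wideWires s)) := by
    refine le_trans ?_ hprod
    calc (t ^ (t - 1)) ^ t = ∏ q ∈ range t, t ^ (t - 1) := by simp
      _ ≤ _ := Finset.prod_le_prod' hsub
  have h2 : 2 ^ ((k / 2) * (t - 1) * t) ≤ (t ^ (t - 1)) ^ t := by
    rw [pow_mul, pow_mul]
    exact Nat.pow_le_pow_left (Nat.pow_le_pow_left htl _) _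
  exact (Nat.pow_le_pow_iff_right (by norm_num)).1 (h2.trans h1)

/-- There is `c > 0` such that for all `n ≥ 2`, every circuit `C` which computes element distinctness on `n` bits
and every `s ≥ 1`, `s * |C| + (n / log n) * W_s(C) ≥ c * n ^ 2 / log n`, where `W_s(C)` is the number of wires leaving
gates of fan-out at least two which depend on more than `s` inputs. -/
theorem result : ∃ c : ℝ, 0 < c ∧ ∀ n : ℕ, 2 ≤ n → ∀ C : Circuit n,
    C.Computes (elementDistinctness n) → ∀ s : ℕ, 1 ≤ s →
      c * (n : ℝ) ^ 2 / Real.log n ≤ s * C.size + n / Real.log n * C.wideWires s := by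
  refine ⟨1 / 100000, by norm_num, fun n hn C hC s hs => ?_⟩
  have hnR : (2 : ℝ) ≤ n := by exact_mod_cast hn
  have hsR : (1 : ℝ) ≤ s := by exact_mod_cast hs
  have hlog2 : 0.69 < Real.log 2 := lt_trans (by norm_num) Real.log_two_gt_d9
  have hlog2' : Real.log 2 < 0.7 := lt_trans Real.log_two_lt_d9 (by norm_num)
  have hln : 0.69 < Real.log n := lt_of_lt_of_le hlog2 (Real.log_le_log (by norm_num) hnR)
  have hln0 : 0 < Real.log n := by linarith
  have hW : (0 : ℝ) ≤ C.wideWires s := Nat.cast_nonneg _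
  have hm : (0 : ℝ) ≤ C.m := Nat.cast_nonneg _
  have hsize : (C.size : ℝ) = n + C.m := by simp [Circuit.size]
  obtain ⟨k, hk⟩ : ∃ k, k = Nat.log 2 n := ⟨_, rfl⟩
  have hn2 : n < 2 ^ (k + 1) := by rw [hk]; exact Nat.lt_pow_succ_log_self (by norm_num) n
  have h2k : 2 ^ k ≤ n := by rw [hk]; exact Nat.pow_log_le_self 2 (by omega)
  by_cases hk16 : k < 16
  · have h1 : (n : ℝ) < 65536 := by
      have : n < 65536 := lt_of_lt_of_le hn2 (by
        calc 2 ^ (k + 1) ≤ 2 ^ 16 := Nat.pow_le_pow_right (by norm_num) (by omega)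
          _ = 65536 := by norm_num)
      exact_mod_cast this
    have h2 : 1 / 100000 * (n : ℝ) ^ 2 / Real.log n ≤ n := by
      rw [div_le_iff₀ hln0]
      nlinarith
    have h3 : (n : ℝ) ≤ s * C.size := by
      rw [hsize]
      calc (n : ℝ) ≤ n + C.m := by linarith
        _ = 1 * (n + C.m) := by ring
        _ ≤ s * (n + C.m) := mul_le_mul_of_nonneg_right hsR (by linarith)
    have h4 : 0 ≤ n / Real.log n * (C.wideWires s : ℝ) := by positivity
    linarith
  push Not at hk16
  have hC' : C.Computes (distinctWords (2 * k) (n / (2 * k))) := by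
    rw [hk]; exact hC
  have hmain := nat_bound hk hk16 C hC' s hs
  obtain ⟨t, ht⟩ : ∃ t, t = n / (2 * k) := ⟨_, rfl⟩
  rw [← ht] at hmain
  have hkR : (16 : ℝ) ≤ k := by exact_mod_cast hk16
  have h8k : (8 : ℝ) * k ≤ n := by
    have h1 : ∀ p : ℕ, 6 ≤ p → 8 * p ≤ 2 ^ p := by
      intro p hp
      induction p, hp using Nat.le_induction with
      | base => norm_num
      | succ p hp ih => rw [pow_succ]; omega
    have h2 : 8 * k ≤ n := (h1 k (by omega)).trans h2k
    exact_mod_cast h2
  have ht1 : (t : ℝ) * (2 * k) ≤ n := by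
    have : t * (2 * k) ≤ n := by rw [ht]; exact Nat.div_mul_le_self _ _
    exact_mod_cast this
  have ht2 : (n : ℝ) < (t + 1) * (2 * k) := by
    have : n < (t + 1) * (2 * k) := by
      rw [ht]
      have := Nat.lt_div_mul_add (a := n) (b := 2 * k) (by omega)
      linarith [this]
    exact_mod_cast this
  have hk0 : (0 : ℝ) < k := by linarith
  -- `t - 1 ≥ n / (4 k)`
  have ht3 : (n : ℝ) / (4 * k) ≤ (t : ℝ) - 1 := by
    rw [div_le_iff₀ (by positivity)]
    nlinarith
  have htpos : 1 ≤ t := by
    by_contra h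
    have : t = 0 := by omega
    rw [this] at ht3
    have h5 : 0 ≤ (n : ℝ) / (4 * k) := by positivity
    norm_num at ht3
    linarith
  have hh : (k : ℝ) / 4 ≤ ((k / 2 : ℕ) : ℝ) := by
    have : k ≤ 4 * (k / 2) := by omega
    have h5 : (k : ℝ) ≤ 4 * ((k / 2 : ℕ) : ℝ) := by exact_mod_cast this
    linarith
  have hmainR : ((k / 2 : ℕ) : ℝ) * ((t : ℝ) - 1) * t ≤
      2 * t + 4 * (2 * s * C.m + t * C.wideWires s) := by
    have h5 : (((k / 2) * (t - 1) * t : ℕ) : ℝ) ≤
        ((2 * t + 4 * (2 * s * C.m + t * C.wideWires s) : ℕ) : ℝ) := by exact_mod_cast hmain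
    push_cast [Nat.cast_sub htpos] at h5
    push_cast
    exact h5
  have hx : 0 ≤ (n : ℝ) / (4 * k) := by positivity
  have hlow : (n : ℝ) ^ 2 / (64 * k) ≤ ((k / 2 : ℕ) : ℝ) * ((t : ℝ) - 1) * t := by
    have h5 : (k : ℝ) / 4 * (n / (4 * k)) * (n / (4 * k)) ≤
        ((k / 2 : ℕ) : ℝ) * ((t : ℝ) - 1) * t := by
      refine mul_le_mul (mul_le_mul hh ht3 hx (by positivity)) (by linarith) hx ?_
      exact mul_nonneg (by positivity) (hx.trans ht3)
    have h6 : (k : ℝ) / 4 * (n / (4 * k)) * (n / (4 * k)) = (n : ℝ) ^ 2 / (64 * k) := by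
      field_simp
      ring
    rw [← h6]; exact h5
  -- the logarithm
  have hl1 : (k : ℝ) * Real.log 2 ≤ Real.log n := by
    rw [← Real.log_pow]
    refine Real.log_le_log (by positivity) ?_
    exact_mod_cast h2k
  have hl2 : Real.log n ≤ (k + 1) * Real.log 2 := by
    have h5 : (((k + 1 : ℕ) : ℝ)) * Real.log 2 = Real.log ((2 : ℝ) ^ (k + 1)) := by
      rw [Real.log_pow]
    have h6 : Real.log n ≤ Real.log ((2 : ℝ) ^ (k + 1)) := by
      refine Real.log_le_log (by positivity) ?_
      exact_mod_cast hn2.le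
    rw [← h5] at h6
    push_cast at h6
    exact h6
  have hkl : (k : ℝ) * 0.69 ≤ Real.log n := by nlinarith
  have hlk : Real.log n ≤ 2 * k := by nlinarith
  have e1 : (n : ℝ) ^ 2 / (100 * Real.log n) ≤ (n : ℝ) ^ 2 / (64 * k) := by
    refine div_le_div_of_nonneg_left (by positivity) (by positivity) ?_
    nlinarith
  have e2 : (2 : ℝ) * t ≤ n := by nlinarith
  have e3 : (t : ℝ) ≤ n / Real.log n := by
    rw [le_div_iff₀ hln0]
    nlinarith [Nat.cast_nonneg (α := ℝ) t]
  have e4 : (t : ℝ) * C.wideWires s ≤ n / Real.log n * C.wideWires s :=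
    mul_le_mul_of_nonneg_right e3 hW
  have e5 : (n : ℝ) ≤ s * C.size := by
    rw [hsize]
    calc (n : ℝ) ≤ n + C.m := by linarith
      _ = 1 * (n + C.m) := by ring
      _ ≤ s * (n + C.m) := mul_le_mul_of_nonneg_right hsR (by linarith)
  have e6 : (s : ℝ) * C.m ≤ s * C.size := by
    rw [hsize]
    exact mul_le_mul_of_nonneg_left (by linarith) (by linarith)
  have e7 : (n : ℝ) ^ 2 / (100 * Real.log n) ≤ 9 * (s * C.size + n / Real.log n * C.wideWires s) := by
    have h5 := (e1.trans hlow).trans hmainR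
    have h6 : 0 ≤ n / Real.log n * (C.wideWires s : ℝ) := by positivity
    have h7 : (2 : ℝ) * t + 4 * (2 * s * C.m + t * C.wideWires s) =
        2 * t + 8 * (s * C.m) + 4 * (t * C.wideWires s) := by ring
    rw [h7] at h5
    linarith
  have e8 : 1 / 100000 * (n : ℝ) ^ 2 / Real.log n ≤ 1 / 9 * ((n : ℝ) ^ 2 / (100 * Real.log n)) := by
    rw [show 1 / 9 * ((n : ℝ) ^ 2 / (100 * Real.log n)) = (1 / 900) * (n : ℝ) ^ 2 / Real.log n by
      field_simp; ring]
    refine div_le_div_of_nonneg_right ?_ hln0.le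
    nlinarith [sq_nonneg (n : ℝ)]
  linarith

end Pool.Agent.Results.MP_22d2c8_lc.LocalSharing
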